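import Pool.Agent.helper25.UC.Defs

/-!
# A2 : elementary inequalities for real configurations (module of helper25's blueprint)
-/

set_option linter.unusedVariables false
set_option linter.unusedSectionVars false
set_option linter.unusedSimpArgs false

namespace UC
open Finset
variable {V : Type} [Fintype V] [DecidableEq V] {s k : ℕ}
variable {G : SimpleGraph V} [DecidableRel G.Adj]

namespace A2aux

theorem eps_self (a : Fin s) : eps a a = 1 := by simp [eps]

theorem eps_ne {a b : Fin s} (h : a ≠ b) : eps a b = -1 := by simp [eps, h]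

theorem eps_comm (a b : Fin s) : eps a b = eps b a := by
  unfold eps
  by_cases h : a = b
  · subst h; rfl
  · rw [if_neg h, if_neg (Ne.symm h)]

theorem eps_or (a b : Fin s) : eps a b = 1 ∨ eps a b = -1 := by
  unfold eps
  by_cases h : a = b
  · left; rw [if_pos h]
  · right; rw [if_neg h]

theorem eps_sq (a b : Fin s) : eps a b * eps a b = 1 := by
  rcases eps_or a b with h | h <;> rw [h] <;> norm_num

theorem abs_eps (a b : Fin s) : |eps a b| = 1 := by
  rcases eps_or a b with h | h <;> rw [h] <;> norm_num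

/-- the pointwise four-point inequality -/
theorem T_le (a b a' b' : Fin s) (p q p' q' : ℝ)
    (h1 : a = a' ∨ (0 ≤ p ∧ 0 ≤ p')) (h2 : b = b' ∨ (0 ≤ q ∧ 0 ≤ q')) :
    eps a b * p * q + eps a' b' * p' * q' - eps a b' * p * q' - eps b a' * q * p' ≤
      |p - eps a a' * p'| * |q - eps b b' * q'| := by
  by_cases ha : a = a'
  · subst ha
    by_cases hb : b = b'
    · subst hb
      rw [eps_self, eps_self, eps_comm b a, ← abs_mul]
      rcases eps_or a b with h | h <;> rw [h]
      · refine le_trans (le_of_eq ?_) (le_abs_self _)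
        ring
      · refine le_trans (le_of_eq ?_) (neg_le_abs _)
        ring
    · obtain ⟨hq, hq'⟩ := h2.resolve_left hb
      rw [eps_self, eps_ne hb, eps_comm b a]
      have e1 : eps a b * p * q + eps a b' * p' * q' - eps a b' * p * q' - eps a b * q * p' =
          (p - 1 * p') * (eps a b * q - eps a b' * q') := by ring
      rw [e1]
      have h3 : |eps a b * q - eps a b' * q'| ≤ |q - (-1) * q'| := by
        have : |q - (-1) * q'| = q + q' := by
          rw [abs_of_nonneg (by linarith)]; ring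
        rw [this, abs_le]
        rcases eps_or a b with h | h <;> rcases eps_or a b' with h' | h' <;> rw [h, h'] <;>
          constructor <;> linarith
      calc (p - 1 * p') * (eps a b * q - eps a b' * q')
          ≤ |(p - 1 * p') * (eps a b * q - eps a b' * q')| := le_abs_self _
        _ = |p - 1 * p'| * |eps a b * q - eps a b' * q'| := abs_mul _ _
        _ ≤ |p - 1 * p'| * |q - (-1) * q'| := mul_le_mul_of_nonneg_left h3 (abs_nonneg _)
  · obtain ⟨hp, hp'⟩ := h1.resolve_left ha
    by_cases hb : b = b'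
    · subst hb
      rw [eps_self, eps_ne ha, eps_comm b a']
      have e1 : eps a b * p * q + eps a' b * p' * q - eps a b * p * q - eps a' b * q * p' = 0 := by
        ring
      have e2 : eps a b * p * q + eps a' b * p' * q' - eps a b * p * q' - eps a' b * q * p' =
          (eps a b * p - eps a' b * p') * (q - 1 * q') := by ring
      rw [e2]
      have h3 : |eps a b * p - eps a' b * p'| ≤ |p - (-1) * p'| := by
        have : |p - (-1) * p'| = p + p' := by
          rw [abs_of_nonneg (by linarith)]; ring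
        rw [this, abs_le]
        rcases eps_or a b with h | h <;> rcases eps_or a' b with h' | h' <;> rw [h, h'] <;>
          constructor <;> linarith
      calc (eps a b * p - eps a' b * p') * (q - 1 * q')
          ≤ |(eps a b * p - eps a' b * p') * (q - 1 * q')| := le_abs_self _
        _ = |eps a b * p - eps a' b * p'| * |q - 1 * q'| := abs_mul _ _
        _ ≤ |p - (-1) * p'| * |q - 1 * q'| := mul_le_mul_of_nonneg_right h3 (abs_nonneg _)
    · obtain ⟨hq, hq'⟩ := h2.resolve_left hb
      rw [eps_ne ha, eps_ne hb]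
      have e1 : |p - (-1) * p'| = p + p' := by
        rw [abs_of_nonneg (by linarith)]; ring
      have e2 : |q - (-1) * q'| = q + q' := by
        rw [abs_of_nonneg (by linarith)]; ring
      rw [e1, e2]
      have t1 : eps a b * p * q ≤ p * q := by
        have := mul_nonneg hp hq
        rcases eps_or a b with h | h <;> rw [h] <;> nlinarith
      have t2 : eps a' b' * p' * q' ≤ p' * q' := by
        have := mul_nonneg hp' hq'
        rcases eps_or a' b' with h | h <;> rw [h] <;> nlinarith
      have t3 : -(eps a b' * p * q') ≤ p * q' := by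
        have := mul_nonneg hp hq'
        rcases eps_or a b' with h | h <;> rw [h] <;> nlinarith
      have t4 : -(eps b a' * q * p') ≤ q * p' := by
        have := mul_nonneg hq hp'
        rcases eps_or b a' with h | h <;> rw [h] <;> nlinarith
      nlinarith

/-- Minkowski in the form which is used -/
theorem mink (a b d : V → ℝ) (h : ∀ v, |a v| ≤ |b v| + |d v|) :
    Real.sqrt (∑ v, a v ^ 2) ≤ Real.sqrt (∑ v, b v ^ 2) + Real.sqrt (∑ v, d v ^ 2) := by
  have hB : 0 ≤ ∑ v, b v ^ 2 := Finset.sum_nonneg fun v _ => sq_nonneg _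
  have hD : 0 ≤ ∑ v, d v ^ 2 := Finset.sum_nonneg fun v _ => sq_nonneg _
  have cs : ∑ v, |b v| * |d v| ≤ Real.sqrt (∑ v, b v ^ 2) * Real.sqrt (∑ v, d v ^ 2) := by
    have := Real.sum_mul_le_sqrt_mul_sqrt Finset.univ (fun v => |b v|) (fun v => |d v|)
    simpa only [sq_abs] using this
  rw [Real.sqrt_le_left (by positivity)]
  have h1 : ∑ v, a v ^ 2 ≤ ∑ v, (|b v| + |d v|) ^ 2 := by
    refine Finset.sum_le_sum fun v _ => ?_
    rw [← sq_abs (a v)]
    exact pow_le_pow_left₀ (abs_nonneg _) (h v) 2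
  have h2 : ∑ v, (|b v| + |d v|) ^ 2 =
      ∑ v, b v ^ 2 + 2 * (∑ v, |b v| * |d v|) + ∑ v, d v ^ 2 := by
    rw [Finset.mul_sum, ← Finset.sum_add_distrib, ← Finset.sum_add_distrib]
    refine Finset.sum_congr rfl fun v _ => ?_
    rw [← sq_abs (b v), ← sq_abs (d v)]
    ring
  have h3 : (Real.sqrt (∑ v, b v ^ 2) + Real.sqrt (∑ v, d v ^ 2)) ^ 2 =
      ∑ v, b v ^ 2 + 2 * (Real.sqrt (∑ v, b v ^ 2) * Real.sqrt (∑ v, d v ^ 2)) +
        ∑ v, d v ^ 2 := by
    have e1 := Real.sq_sqrt hB
    have e2 := Real.sq_sqrt hD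
    nlinarith
  rw [h3]
  linarith

theorem sum_abs_le (x : V → ℝ) :
    ∑ v, |x v| ≤ Real.sqrt (cV V) * Real.sqrt (∑ v, x v ^ 2) := by
  have := Real.sum_mul_le_sqrt_mul_sqrt Finset.univ (fun _ : V => (1 : ℝ)) (fun v => |x v|)
  simp only [one_mul, one_pow, Finset.sum_const, Finset.card_univ, sq_abs, nsmul_eq_mul,
    mul_one] at this
  exact this

theorem cV_nonneg : 0 ≤ cV V := by unfold cV; positivity

end A2aux

open A2aux

theorem AA_symm (c : V → Fin s) (x : V → ℝ) (c' : V → Fin s) (y : V → ℝ) :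
    AA G c x c' y = AA G c' y c x := by
  unfold AA
  rw [Finset.sum_comm]
  refine Finset.sum_congr rfl fun u _ => Finset.sum_congr rfl fun v _ => ?_
  rw [eps_comm (c v) (c' u)]
  by_cases h : G.Adj u v
  · rw [if_pos h, if_pos h.symm]; ring
  · rw [if_neg h, if_neg (fun h' => h h'.symm)]

theorem four_point (c : V → Fin s) (x : V → ℝ) (c' : V → Fin s) (y : V → ℝ)
    (h : ∀ v, c v = c' v ∨ (0 ≤ x v ∧ 0 ≤ y v)) :
    AA G c x c x + AA G c' y c' y - 2 * AA G c x c' y ≤ cV V * dsq c x c' y := by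
  set δ : V → ℝ := fun v => |x v - eps (c v) (c' v) * y v| with hδ
  have e1 : AA G c x c x + AA G c' y c' y - 2 * AA G c x c' y =
      ∑ u, ∑ v, if G.Adj u v then
        (eps (c u) (c v) * x u * x v + eps (c' u) (c' v) * y u * y v -
          eps (c u) (c' v) * x u * y v - eps (c v) (c' u) * x v * y u) else 0 := by
    have e2 : 2 * AA G c x c' y = AA G c x c' y + AA G c' y c x := by
      rw [AA_symm c' y c x]; ring
    rw [e2]
    unfold AA
    rw [← Finset.sum_add_distrib, ← Finset.sum_add_distrib, ← Finset.sum_sub_distrib]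
    refine Finset.sum_congr rfl fun u _ => ?_
    rw [← Finset.sum_add_distrib, ← Finset.sum_add_distrib, ← Finset.sum_sub_distrib]
    refine Finset.sum_congr rfl fun v _ => ?_
    by_cases hA : G.Adj u v
    · simp only [if_pos hA]
      rw [eps_comm (c v) (c' u)]; ring
    · simp only [if_neg hA]; ring
  rw [e1]
  calc _ ≤ ∑ u, ∑ v, δ u * δ v := by
        refine Finset.sum_le_sum fun u _ => Finset.sum_le_sum fun v _ => ?_
        by_cases hA : G.Adj u v
        · rw [if_pos hA]
          exact T_le (c u) (c v) (c' u) (c' v) (x u) (x v) (y u) (y v) (h u) (h v)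
        · rw [if_neg hA]
          exact mul_nonneg (abs_nonneg _) (abs_nonneg _)
    _ = (∑ v, δ v) ^ 2 := by
        rw [sq, Finset.sum_mul_sum]
    _ ≤ cV V * dsq c x c' y := by
        have := sq_sum_le_card_mul_sum_sq (s := (Finset.univ : Finset V)) (f := δ)
        refine this.trans (le_of_eq ?_)
        unfold cV dsq
        rw [Finset.card_univ]
        congr 1
        refine Finset.sum_congr rfl fun v _ => ?_
        rw [hδ]
        exact sq_abs _

theorem AA_le (c : V → Fin s) (x : V → ℝ) (c' : V → Fin s) (y : V → ℝ) :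
    |AA G c x c' y| ≤ cV V * (Real.sqrt (∑ v, x v ^ 2) * Real.sqrt (∑ v, y v ^ 2)) := by
  have h1 : |AA G c x c' y| ≤ ∑ u, ∑ v, |x u| * |y v| := by
    unfold AA
    refine (Finset.abs_sum_le_sum_abs _ _).trans (Finset.sum_le_sum fun u _ => ?_)
    refine (Finset.abs_sum_le_sum_abs _ _).trans (Finset.sum_le_sum fun v _ => ?_)
    by_cases hA : G.Adj u v
    · rw [if_pos hA, abs_mul, abs_mul, abs_eps, one_mul]
    · rw [if_neg hA, abs_zero]
      positivity
  have h2 : ∑ u, ∑ v, |x u| * |y v| = (∑ u, |x u|) * ∑ v, |y v| := by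
    rw [Finset.sum_mul_sum]
  rw [h2] at h1
  have hx := sum_abs_le x
  have hy := sum_abs_le y
  have h3 : (∑ u, |x u|) * ∑ v, |y v| ≤
      (Real.sqrt (cV V) * Real.sqrt (∑ v, x v ^ 2)) *
        (Real.sqrt (cV V) * Real.sqrt (∑ v, y v ^ 2)) :=
    mul_le_mul hx hy (Finset.sum_nonneg fun _ _ => abs_nonneg _) (by positivity)
  have h4 : (Real.sqrt (cV V) * Real.sqrt (∑ v, x v ^ 2)) *
        (Real.sqrt (cV V) * Real.sqrt (∑ v, y v ^ 2)) =
      cV V * (Real.sqrt (∑ v, x v ^ 2) * Real.sqrt (∑ v, y v ^ 2)) := by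
    have := Real.mul_self_sqrt (cV_nonneg (V := V))
    calc _ = (Real.sqrt (cV V) * Real.sqrt (cV V)) *
        (Real.sqrt (∑ v, x v ^ 2) * Real.sqrt (∑ v, y v ^ 2)) := by ring
      _ = _ := by rw [this]
  rw [h4] at h3
  exact h1.trans h3

theorem AA_self_le (c : V → Fin s) (x : V → ℝ) :
    |AA G c x c x| ≤ cV V * ∑ v, x v ^ 2 := by
  have h := AA_le (G := G) c x c x
  rwa [Real.mul_self_sqrt (Finset.sum_nonneg fun v _ => sq_nonneg _)] at h

theorem dsq_nonneg (c : V → Fin s) (x : V → ℝ) (c' : V → Fin s) (y : V → ℝ) :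
    0 ≤ dsq c x c' y := by
  unfold dsq
  exact Finset.sum_nonneg fun v _ => sq_nonneg _

theorem dsq_comm (c : V → Fin s) (x : V → ℝ) (c' : V → Fin s) (y : V → ℝ) :
    dsq c x c' y = dsq c' y c x := by
  unfold dsq
  refine Finset.sum_congr rfl fun v _ => ?_
  rw [eps_comm (c' v) (c v)]
  rcases eps_or (c v) (c' v) with h | h <;> rw [h] <;> ring

theorem dsq_tri (c : V → Fin s) (x : V → ℝ) (c' : V → Fin s) (y : V → ℝ)
    (c'' : V → Fin s) (z : V → ℝ)
    (h : ∀ v, (c v = c' v ∧ c' v = c'' v) ∨ (0 ≤ x v ∧ 0 ≤ y v ∧ 0 ≤ z v)) :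
    Real.sqrt (dsq c x c'' z) ≤ Real.sqrt (dsq c x c' y) + Real.sqrt (dsq c' y c'' z) := by
  unfold dsq
  refine mink _ _ _ fun v => ?_
  rcases h v with ⟨h1, h2⟩ | ⟨hx, hy, hz⟩
  · rw [← h2, ← h1, eps_self]
    have := abs_sub_le (x v) (y v) (z v)
    simpa using this
  · by_cases h1 : c v = c' v
    · by_cases h2 : c' v = c'' v
      · rw [← h2, ← h1, eps_self]
        have := abs_sub_le (x v) (y v) (z v)
        simpa using this
      · have h3 : c v ≠ c'' v := by rw [h1]; exact h2
        rw [eps_ne h3, eps_ne h2, ← h1, eps_self, abs_of_nonneg (by linarith : 0 ≤ x v - -1 * z v),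
          abs_of_nonneg (by linarith : 0 ≤ y v - -1 * z v)]
        have := le_abs_self (x v - 1 * y v)
        linarith
    · by_cases h2 : c' v = c'' v
      · have h3 : c v ≠ c'' v := by rw [← h2]; exact h1
        rw [eps_ne h3, eps_ne h1, ← h2, eps_self,
          abs_of_nonneg (by linarith : 0 ≤ x v - -1 * z v),
          abs_of_nonneg (by linarith : 0 ≤ x v - -1 * y v)]
        have := neg_le_abs (y v - 1 * z v)
        linarith
      · rw [eps_ne h1, eps_ne h2, abs_of_nonneg (by linarith : 0 ≤ x v - -1 * y v),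
          abs_of_nonneg (by linarith : 0 ≤ y v - -1 * z v), abs_le]
        rcases eps_or (c v) (c'' v) with h | h <;> rw [h] <;> constructor <;> linarith

theorem norm_sub_le_dist (c : V → Fin s) (x : V → ℝ) (c' : V → Fin s) (y : V → ℝ) :
    |Real.sqrt (∑ v, x v ^ 2) - Real.sqrt (∑ v, y v ^ 2)| ≤ Real.sqrt (dsq c x c' y) := by
  have key : ∀ (c : V → Fin s) (x : V → ℝ) (c' : V → Fin s) (y : V → ℝ),
      Real.sqrt (∑ v, x v ^ 2) ≤ Real.sqrt (∑ v, y v ^ 2) + Real.sqrt (dsq c x c' y) := by
    intro c x c' y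
    unfold dsq
    refine mink _ _ _ fun v => ?_
    have h1 : |x v| ≤ |x v - eps (c v) (c' v) * y v| + |eps (c v) (c' v) * y v| := by
      have := abs_add_le (x v - eps (c v) (c' v) * y v) (eps (c v) (c' v) * y v)
      simpa using this
    rw [abs_mul, abs_eps, one_mul] at h1
    linarith
  rw [abs_sub_le_iff]
  constructor
  · have := key c x c' y
    linarith
  · have := key c' y c x
    rw [dsq_comm] at this
    linarith

theorem Lf_le (σ : V → Fin s) (b : Fin s) (v : V) (x : V → ℝ) :
    |Lf G σ b v x| ≤ cV V * Real.sqrt (∑ v, x v ^ 2) := by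
  have h1 : |Lf G σ b v x| ≤ ∑ u, |x u| := by
    unfold Lf
    refine (Finset.abs_sum_le_sum_abs _ _).trans (Finset.sum_le_sum fun u _ => ?_)
    by_cases hA : G.Adj v u
    · rw [if_pos hA, abs_mul, abs_eps, one_mul]
    · rw [if_neg hA, abs_zero]
      exact abs_nonneg _
  have hc : 1 ≤ cV V := by
    unfold cV
    have : 0 < Fintype.card V := Fintype.card_pos_iff.mpr ⟨v⟩
    exact_mod_cast this
  have h2 : Real.sqrt (cV V) ≤ cV V := by
    rw [Real.sqrt_le_left (by linarith)]
    nlinarith
  exact h1.trans ((sum_abs_le x).trans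
    (mul_le_mul_of_nonneg_right h2 (Real.sqrt_nonneg _)))

/-- `Lf` is linear in `x` -/
theorem Lf_add (σ : V → Fin s) (b : Fin s) (v : V) (x y : V → ℝ) :
    Lf G σ b v (fun u => x u + y u) = Lf G σ b v x + Lf G σ b v y := by
  unfold Lf
  rw [← Finset.sum_add_distrib]
  refine Finset.sum_congr rfl fun u _ => ?_
  split_ifs <;> ring

theorem Lf_smul (σ : V → Fin s) (b : Fin s) (v : V) (t : ℝ) (x : V → ℝ) :
    Lf G σ b v (fun u => t * x u) = t * Lf G σ b v x := by
  unfold Lf
  rw [Finset.mul_sum]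
  refine Finset.sum_congr rfl fun u _ => ?_
  split_ifs <;> ring

theorem Lf_sum {m : ℕ} (σ : V → Fin s) (b : Fin s) (v : V) (t : Fin m → ℝ)
    (x : Fin m → V → ℝ) :
    Lf G σ b v (fun u => ∑ j, t j * x j u) = ∑ j, t j * Lf G σ b v (x j) := by
  unfold Lf
  simp only [Finset.mul_sum]
  rw [Finset.sum_comm]
  refine Finset.sum_congr rfl fun u _ => ?_
  by_cases hA : G.Adj v u
  · simp only [if_pos hA]
    refine Finset.sum_congr rfl fun j _ => ?_
    ring
  · simp only [if_neg hA, mul_zero, Finset.sum_const_zero]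

/-- the quadratic form in terms of the field -/
theorem AA_eq_Lf (c : V → Fin s) (x y : V → ℝ) :
    AA G c x c y = ∑ v, x v * Lf G c (c v) v y := by
  unfold AA Lf
  refine Finset.sum_congr rfl fun u _ => ?_
  rw [Finset.mul_sum]
  refine Finset.sum_congr rfl fun v _ => ?_
  split_ifs <;> ring

/-- `(tot z)² ≤ card V · qq z` -/
theorem tot_sq_le (z : St V s) : tot z ^ 2 ≤ cV V * qq z := by
  unfold tot cV qq
  have := sq_sum_le_card_mul_sum_sq (s := (Finset.univ : Finset V)) (f := fun v => (z.n v : ℝ))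
  rwa [Finset.card_univ] at this

theorem tot_nonneg (z : St V s) : 0 ≤ tot z := by
  unfold tot
  exact Finset.sum_nonneg fun v _ => Nat.cast_nonneg _

theorem tot_le_qq (z : St V s) : tot z ≤ qq z := by
  unfold tot qq
  refine Finset.sum_le_sum fun v _ => ?_
  have : z.n v ≤ z.n v ^ 2 := Nat.le_self_pow (by norm_num) _
  exact_mod_cast this

/-- `qq z ≤ (tot z)²` -/
theorem qq_le_tot_sq (z : St V s) : qq z ≤ tot z ^ 2 := by
  unfold qq
  have h : ∀ v, (z.n v : ℝ) ≤ tot z := by
    intro v
    unfold tot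
    exact Finset.single_le_sum (f := fun v => (z.n v : ℝ)) (fun u _ => Nat.cast_nonneg _)
      (Finset.mem_univ v)
  calc ∑ v, (z.n v : ℝ) ^ 2 ≤ ∑ v, (z.n v : ℝ) * tot z := by
        refine Finset.sum_le_sum fun v _ => ?_
        rw [sq]
        exact mul_le_mul_of_nonneg_left (h v) (Nat.cast_nonneg _)
    _ = tot z ^ 2 := by
        rw [← Finset.sum_mul, sq]
        rfl

end UC
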